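import Mathlib

/-!
# Projectively w-compact groups: definitions and statements (project WC)
-/

namespace Pool.Agent.N585.WC

open Cardinal Set TopologicalSpace

/-- The weight of a space: the least cardinality of a base. -/
noncomputable def weight (X : Type) [TopologicalSpace X] : Cardinal :=
  sInf {κ | ∃ B : Set (Set X), IsTopologicalBasis B ∧ #B = κ}

/-- Countable compactness: each countable open cover has a finite subcover. -/
def CtblyCompact (X : Type) [TopologicalSpace X] : Prop :=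
  ∀ U : ℕ → Set X, (∀ n, IsOpen (U n)) → (⋃ n, U n) = Set.univ →
    ∃ s : Finset ℕ, (⋃ n ∈ s, U n) = Set.univ

/-- `X` is `w`-compact: some compact subset has the weight of `X`. -/
def WCompact (X : Type) [TopologicalSpace X] : Prop :=
  ∃ C : Set X, IsCompact C ∧ weight ↥C = weight X

/-- `H` is projectively `w`-compact: all images of `H` under continuous surjective homomorphisms
onto (Hausdorff) topological groups are `w`-compact. -/
def ProjWCompact (H : Type) [AddGroup H] [TopologicalSpace H] : Prop :=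
  ∀ (K : Type) [AddGroup K] [TopologicalSpace K] [IsTopologicalAddGroup K] [T2Space K]
    (f : H →+ K), Continuous f → Function.Surjective f → WCompact K

/-- Pseudo-intersections for families of size at most `ℵ₁` (this says `ℵ₁ < 𝔭`). -/
def PI : Prop :=
  ∀ (I : Type) (F : I → Set ℕ), #I ≤ ℵ₁ → (∀ s : Finset I, (⋂ i ∈ s, F i).Infinite) →
    ∃ B : Set ℕ, B.Infinite ∧ ∀ i, (B \ F i).Finite

/-- Martin's axiom: for every nonempty preordered set `P` in which every set of pairwise
incompatible elements is countable, and every family `𝒟` of fewer than `𝔠` dense subsets of `P`,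
there is a filter in `P` which meets all elements of `𝒟`. -/
def MartinAxiom : Prop :=
  ∀ (P : Type) [Preorder P] [Nonempty P],
    (∀ A : Set P, (∀ p ∈ A, ∀ q ∈ A, p ≠ q → ¬ ∃ r : P, r ≤ p ∧ r ≤ q) → A.Countable) →
    ∀ 𝒟 : Set (Set P), #𝒟 < 𝔠 → (∀ D ∈ 𝒟, ∀ p : P, ∃ q ∈ D, q ≤ p) →
      ∃ G : Set P, G.Nonempty ∧ (∀ p ∈ G, ∀ q : P, p ≤ q → q ∈ G) ∧
        (∀ p ∈ G, ∀ q ∈ G, ∃ r ∈ G, r ≤ p ∧ r ≤ q) ∧ ∀ D ∈ 𝒟, (G ∩ D).Nonempty

/-- (WC/1) Booth's lemma. -/
def StmMA : Prop := MartinAxiom → (ℵ₁ : Cardinal.{0}) < 𝔠 → PI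

/-- (WC/2) Countably compact subsets of `2^ω₁` are `ω`-bounded. -/
def StmBdd : Prop :=
  PI → ∀ (J : Type), #J = ℵ₁ → ∀ (H : Set (J → ZMod 2)), CtblyCompact ↥H →
    ∀ A : Set (J → ZMod 2), A ⊆ H → A.Countable → closure A ⊆ H

/-- (WC/3) The images of the basic subgroups: a base at zero consisting of open subgroups of
finite index. -/
def StmBase : Prop :=
  ∀ (J : Type) (H : AddSubgroup (J → ZMod 2)) (K : Type) [AddGroup K] [TopologicalSpace K]
    [IsTopologicalAddGroup K] [T2Space K] (f : ↥H →+ K), Continuous f → Function.Surjective f →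
    ∃ O : Finset J → AddSubgroup K, (∀ F, IsOpen (O F : Set K)) ∧ (∀ F, (O F).FiniteIndex) ∧
      (∀ F F', F ⊆ F' → O F' ≤ O F) ∧
      ∀ W : Set K, IsOpen W → (0 : K) ∈ W → ∃ F, (O F : Set K) ⊆ W

/-- (WC/4) The weight of `K` is at most `ℵ₁`; weights of subspaces; first countability. -/
def StmWt : Prop :=
  (∀ (J : Type), #J ≤ ℵ₁ → Infinite J → ∀ (K : Type) [AddGroup K] [TopologicalSpace K]
    [IsTopologicalAddGroup K] (O : Finset J → AddSubgroup K), (∀ F, IsOpen (O F : Set K)) →
      (∀ F, (O F).FiniteIndex) →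
      (∀ W : Set K, IsOpen W → (0 : K) ∈ W → ∃ F, (O F : Set K) ⊆ W) → weight K ≤ ℵ₁) ∧
  (∀ (X : Type) [TopologicalSpace X] (C : Set X), weight ↥C ≤ weight X) ∧
  (∀ (X : Type) [TopologicalSpace X], weight ↥(Set.univ : Set X) = weight X) ∧
  (∀ (X : Type) [TopologicalSpace X], weight X < ℵ₁ → SecondCountableTopology X)

/-- (WC/5) If countably many of the open subgroups have trivial intersection then a countably
compact `K` is compact. -/
def StmCpt : Prop :=
  ∀ (K : Type) [AddGroup K] [TopologicalSpace K] [IsTopologicalAddGroup K]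
    (O : ℕ → AddSubgroup K), CtblyCompact K → (∀ n, IsOpen (O n : Set K)) →
      (∀ n, (O n).FiniteIndex) → (∀ x : K, (∀ n, x ∈ O n) → x = 0) → CompactSpace K

/-- (WC/6) A sequence of type `ω₁` converging to zero. -/
def StmSeq : Prop :=
  ∀ (J : Type), #J = ℵ₁ → ∀ (K : Type) [AddGroup K] [TopologicalSpace K]
    [IsTopologicalAddGroup K] [T2Space K] (O : Finset J → AddSubgroup K),
      (∀ F, IsOpen (O F : Set K)) →
      (∀ W : Set K, IsOpen W → (0 : K) ∈ W → ∃ F, (O F : Set K) ⊆ W) →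
      (∀ A : Set K, A.Countable → IsCompact (closure A)) →
      (∀ S : Set (Finset J), S.Countable → ∃ x : K, x ≠ 0 ∧ ∀ F ∈ S, x ∈ O F) →
      ∃ C : Set K, IsCompact C ∧ ¬ SecondCountableTopology ↥C

/-- (WC/7) The group `2^ω₁` is not metrizable. -/
def StmMetr : Prop :=
  ∀ (J : Type), #J = ℵ₁ → ¬ MetrizableSpace (J → ZMod 2)

end Pool.Agent.N585.WC
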