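import Pool.Agent.N585.WC.Defs

/-!
# Projectively w-compact groups: assembly
-/

namespace Pool.Agent.N585.WC

open Cardinal Set TopologicalSpace

/-- The statement of Q1. -/
def Q1 : Prop :=
  ∀ (G : Type) [AddCommGroup G] [TopologicalSpace G] [IsTopologicalAddGroup G] [CompactSpace G]
    [T2Space G],
    (∀ D : AddSubgroup G, Dense (D : Set G) → CtblyCompact ↥D → ProjWCompact ↥D) →
      MetrizableSpace G

theorem ctblyCompact_image {X Y : Type} [TopologicalSpace X] [TopologicalSpace Y] {f : X → Y}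
    (hf : Continuous f) (hs : Function.Surjective f) (h : CtblyCompact X) : CtblyCompact Y := by
  intro U hU hc
  obtain ⟨s, hs'⟩ := h (fun n => f ⁻¹' U n) (fun n => (hU n).preimage hf)
    (by rw [← preimage_iUnion, hc, preimage_univ])
  refine ⟨s, Set.eq_univ_of_forall fun y => ?_⟩
  obtain ⟨x, rfl⟩ := hs y
  have hx : x ∈ ⋃ n ∈ s, f ⁻¹' U n := by rw [hs']; exact mem_univ _
  simpa using hx

theorem wcompact_of {J : Type} (hJ : #J = ℵ₁) (hBdd : StmBdd) (hBase : StmBase) (hWt : StmWt)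
    (hCpt : StmCpt) (hSeq : StmSeq) (hPI : PI) (D : AddSubgroup (J → ZMod 2))
    (hD : CtblyCompact ↥D) : ProjWCompact ↥D := by
  intro K _ _ _ _ f hf hs
  obtain ⟨O, hO1, hO2, -, hO4⟩ := hBase J D K f hf hs
  have hKc : CtblyCompact K := ctblyCompact_image hf hs hD
  have hJi : Infinite J := by
    rw [Cardinal.infinite_iff, hJ]
    exact aleph0_lt_aleph_one.le
  by_cases hS : ∀ S : Set (Finset J), S.Countable → ∃ x : K, x ≠ 0 ∧ ∀ F ∈ S, x ∈ O F
  · have hcl : ∀ A : Set K, A.Countable → IsCompact (closure A) := by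
      intro A hA
      choose g hg using hs
      have hA' : ((fun a => ((g a : ↥D) : J → ZMod 2)) '' A).Countable := hA.image _
      have hsub : closure ((fun a => ((g a : ↥D) : J → ZMod 2)) '' A) ⊆ (D : Set (J → ZMod 2)) := by
        refine hBdd hPI J hJ (D : Set (J → ZMod 2)) hD _ ?_ hA'
        rintro _ ⟨a, -, rfl⟩
        exact (g a).2
      have hcomp : IsCompact (closure ((fun a => ((g a : ↥D) : J → ZMod 2)) '' A)) :=
        isClosed_closure.isCompact
      have hcomp2 : IsCompact ((Subtype.val : ↥D → (J → ZMod 2)) ⁻¹'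
          (closure ((fun a => ((g a : ↥D) : J → ZMod 2)) '' A))) := by
        refine Topology.IsInducing.subtypeVal.isCompact_iff.2 ?_
        convert hcomp using 1
        ext x
        constructor
        · rintro ⟨y, hy, rfl⟩
          exact hy
        · intro hx
          exact ⟨⟨x, hsub hx⟩, hx, rfl⟩
      have hcomp3 := hcomp2.image hf
      refine hcomp3.of_isClosed_subset isClosed_closure ?_
      refine closure_minimal ?_ hcomp3.isClosed
      intro a ha
      refine ⟨g a, subset_closure ⟨a, ha, rfl⟩, hg a⟩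
    obtain ⟨C, hC1, hC2⟩ := hSeq J hJ K O hO1 hO4 hcl hS
    refine ⟨C, hC1, le_antisymm (hWt.2.1 K C) ?_⟩
    refine (hWt.1 J hJ.le hJi K O hO1 hO2 hO4).trans ?_
    by_contra hc
    exact hC2 (hWt.2.2.2 ↥C (not_le.1 hc))
  · push Not at hS
    obtain ⟨S, hSc, hS⟩ := hS
    have hne : S.Nonempty ∨ S = ∅ := (Set.eq_empty_or_nonempty S).symm
    have hKcomp : CompactSpace K := by
      have hSc' : (S ∪ {∅}).Countable := hSc.union (countable_singleton _)
      obtain ⟨e, he⟩ := hSc'.exists_eq_range ⟨∅, Or.inr rfl⟩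
      refine hCpt K (fun n => O (e n)) hKc (fun n => hO1 _) (fun n => hO2 _) (fun x hx => ?_)
      by_contra hx0
      obtain ⟨F, hF, hxF⟩ := hS x hx0
      have : F ∈ range e := he ▸ Or.inl hF
      obtain ⟨n, rfl⟩ := this
      exact hxF (hx n)
    exact ⟨Set.univ, isCompact_univ, hWt.2.2.1 K⟩

theorem not_Q1_of_PI (hBdd : StmBdd) (hBase : StmBase) (hWt : StmWt)
    (hCpt : StmCpt) (hSeq : StmSeq) (hM : StmMetr) (hPI : PI) : ¬ Q1 := by
  intro hQ
  have hJ : #(ord ℵ₁ : Ordinal.{0}).ToType = ℵ₁ := mk_ord_toType _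
  exact hM _ hJ (hQ ((ord ℵ₁ : Ordinal.{0}).ToType → ZMod 2)
    (fun D _ hD => wcompact_of hJ hBdd hBase hWt hCpt hSeq hPI D hD))

end Pool.Agent.N585.WC
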