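import Pool.Agent.N585.WC.Main
import Pool.Agent.N75.WCMA
import Pool.Agent.N49.WCbdd
import Pool.Agent.N717.WC3
import Pool.Agent.N701.WCwt
import Pool.Agent.N383.WCseq
import Pool.Agent.N713.WC7
import Pool.Agent.N400.WC5

/-!
# Dense countably compact subgroups and metrizability: the statement fails under Martin's axiom

The statement of Q1 (every compact abelian group all of whose dense countably compact subgroups are
projectively `w`-compact is metrizable) is refuted by Martin's axiom together with the negation of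
the continuum hypothesis, and even by `ℵ₁ < 𝔭`. The counterexample is `(ℤ/2)^ω₁`. Hence it is not a
theorem of ZFC, nor of ZFC + MA.
-/

namespace Pool.Agent.N585.WC.NotUnderMA

open Cardinal Set TopologicalSpace

/-- The weight of a space: the least cardinality of a base. -/
noncomputable def weight (X : Type) [TopologicalSpace X] : Cardinal :=
  sInf {κ | ∃ B : Set (Set X), IsTopologicalBasis B ∧ #B = κ}

/-- Countable compactness: each countable open cover has a finite subcover. -/
def CountablyCompact (X : Type) [TopologicalSpace X] : Prop :=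
  ∀ U : ℕ → Set X, (∀ n, IsOpen (U n)) → (⋃ n, U n) = Set.univ →
    ∃ s : Finset ℕ, (⋃ n ∈ s, U n) = Set.univ

/-- `X` is `w`-compact: some compact subset has the weight of `X`. -/
def WCompact (X : Type) [TopologicalSpace X] : Prop :=
  ∃ C : Set X, IsCompact C ∧ weight ↥C = weight X

/-- `H` is projectively `w`-compact: every (Hausdorff) topological group which is the image of `H`
under a continuous surjective homomorphism is `w`-compact. -/
def ProjectivelyWCompact (H : Type) [AddGroup H] [TopologicalSpace H] : Prop :=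
  ∀ (K : Type) [AddGroup K] [TopologicalSpace K] [IsTopologicalAddGroup K] [T2Space K]
    (f : H →+ K), Continuous f → Function.Surjective f → WCompact K

/-- The statement of Q1: for every compact abelian group `G`, if every dense countably compact
subgroup of `G` is projectively `w`-compact, then `G` is metrizable. -/
def Q1Statement : Prop :=
  ∀ (G : Type) [AddCommGroup G] [TopologicalSpace G] [IsTopologicalAddGroup G] [CompactSpace G]
    [T2Space G],
    (∀ D : AddSubgroup G, Dense (D : Set G) → CountablyCompact ↥D → ProjectivelyWCompact ↥D) →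
      MetrizableSpace G

/-- `ℵ₁ < 𝔭`: every family of at most `ℵ₁` sets of natural numbers with the strong finite
intersection property has an infinite pseudo-intersection. -/
def AlephOneLtP : Prop :=
  ∀ (I : Type) (F : I → Set ℕ), #I ≤ ℵ₁ → (∀ s : Finset I, (⋂ i ∈ s, F i).Infinite) →
    ∃ B : Set ℕ, B.Infinite ∧ ∀ i, (B \ F i).Finite

/-- Martin's axiom: for every nonempty preordered set `P` in which every set of pairwise
incompatible elements is countable, and every family `𝒟` of fewer than `𝔠` dense subsets of `P`,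
there is a filter in `P` which meets all elements of `𝒟`. -/
def MartinAxiom : Prop :=
  ∀ (P : Type) [Preorder P] [Nonempty P],
    (∀ A : Set P, (∀ p ∈ A, ∀ q ∈ A, p ≠ q → ¬ ∃ r : P, r ≤ p ∧ r ≤ q) → A.Countable) →
    ∀ 𝒟 : Set (Set P), #𝒟 < 𝔠 → (∀ D ∈ 𝒟, ∀ p : P, ∃ q ∈ D, q ≤ p) →
      ∃ G : Set P, G.Nonempty ∧ (∀ p ∈ G, ∀ q : P, p ≤ q → q ∈ G) ∧
        (∀ p ∈ G, ∀ q ∈ G, ∃ r ∈ G, r ≤ p ∧ r ≤ q) ∧ ∀ D ∈ 𝒟, (G ∩ D).Nonempty

/-- Main theorem: under `ℵ₁ < 𝔭` every countably compact subgroup of `(ℤ/2)^ω₁` (`J` any set of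
size `ℵ₁`), dense or not, is projectively `w`-compact, although `(ℤ/2)^ω₁` is a non-metrizable
compact group; so the statement of Q1 fails. This applies under Martin's axiom and the negation of
the continuum hypothesis. -/
theorem result :
    (AlephOneLtP → ∀ J : Type, #J = ℵ₁ →
      (∀ D : AddSubgroup (J → ZMod 2), CountablyCompact ↥D → ProjectivelyWCompact ↥D) ∧
      ¬ MetrizableSpace (J → ZMod 2)) ∧
    (AlephOneLtP → ¬ Q1Statement) ∧
    (MartinAxiom → (ℵ₁ : Cardinal.{0}) < 𝔠 → AlephOneLtP) ∧
    (MartinAxiom → (ℵ₁ : Cardinal.{0}) < 𝔠 → ¬ Q1Statement) := by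
  have hBdd := Pool.Agent.N49.WC.stmBdd
  have hBase := Pool.Agent.N717.WC3.stmBase
  have hWt := Pool.Agent.N701.WCwt.stmWt
  have hCpt : Pool.Agent.N585.WC.StmCpt := Pool.Agent.N400.WC5.stmCpt
  have hSeq := Pool.Agent.N383.WC.stmSeq
  have hMetr := Pool.Agent.N713.WC.stmMetr
  have hMA := Pool.Agent.N75.WCMA.stmMA
  have h2 : AlephOneLtP → ¬ Q1Statement := fun h =>
    Pool.Agent.N585.WC.not_Q1_of_PI hBdd hBase hWt hCpt hSeq hMetr h
  refine ⟨fun h J hJ => ⟨fun D hD => ?_, hMetr J hJ⟩, h2, hMA, fun h hc => h2 (hMA h hc)⟩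
  exact Pool.Agent.N585.WC.wcompact_of hJ hBdd hBase hWt hCpt hSeq h D hD

end Pool.Agent.N585.WC.NotUnderMA
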